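import Pool.Agent.J4H33.Uni4
import Pool.Agent.J4H33.KT5
import Pool.Agent.J4H33.Blk6
import Pool.Agent.J4H33.Blk7
import Pool.Agent.J4H33.Cut3

/-!
# Primes in very short intervals at sparse dilates of almost every point, with power saving

Let `A` be an ARBITRARY set of at least `M ^ (1 - ε)` primes in `[β M, M]`, where `M` may be as small as `(log X) ^ (3 + κ)`
and as large as a power of `X`. Then for every real `y` in `(0, X / M]` outside at most `X / (H₀ D)` intervals of length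
`H₀ / M`, the following holds for ALL lengths `H` with `H₀ ≤ H ≤ X ^ (1 - ρ)` simultaneously: the intervals `(a y - H, a y)`
contain `(1 + O(δ)) H / log (a y)` primes on average over `a ∈ A`. The proportion `1 / D` of exceptional points saves a power
of `M` (any power `M ^ (-γ)`, `γ < 1 / 3`, up to the factor `log X * max 1 (log X / H₀)`), up to a power of `X`. The shortest
length `H₀` may be `λ log X`, and if `M ≥ (log X) ^ (6 + κ)` it may even be a constant.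
-/

set_option autoImplicit false

namespace Pool.Agent.Results.MP_711652_nt.SparseDilates

open Finset

/-- the number of primes in the open interval `(x - H, x)`, divided by its expected value `H / log x` -/
noncomputable def density (H x : ℝ) : ℝ :=
  (Set.ncard {p : ℕ | p.Prime ∧ x - H < p ∧ (p : ℝ) < x} : ℝ) * Real.log x / H

theorem result (γ ε θ₁ ρ β δ : ℝ) (hγ : 0 < γ) (hε : 0 < ε) (hθ₁ : 0 < θ₁) (hθ₁' : θ₁ < 1)
    (hcond : γ + (1 + θ₁) * ε < 1 / 3) (hρ : 0 < ρ) (hβ : 0 < β) (hδ : 0 < δ) :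
    ∃ s H₁ X₀ : ℝ, 0 < s ∧ ∀ X : ℝ, X₀ ≤ X → ∀ M D H₀ : ℝ, 1 ≤ D → D ≤ X ^ s → H₁ ≤ H₀ →
      D * Real.log X * max 1 (Real.log X / H₀) ≤ M ^ γ → 0 < M → M ≤ X ^ θ₁ →
      ∀ A : Finset ℕ, (∀ a ∈ A, a.Prime ∧ β * M ≤ (a : ℝ) ∧ (a : ℝ) ≤ M) → M ^ (1 - ε) ≤ (A.card : ℝ) →
      ∃ U : Finset ℝ, (U.card : ℝ) ≤ X / (H₀ * D) ∧ ∀ y : ℝ, 0 < y → y ≤ X / M →
        (∀ u ∈ U, ¬ (u ≤ y ∧ y ≤ u + H₀ / M)) →
        ∀ H : ℝ, H₀ ≤ H → H ≤ X ^ (1 - ρ) →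
          |∑ a ∈ A, density H (a * y) - A.card| ≤ δ * A.card := by
  have hden : ∀ H x : ℝ, density H x = Pool.Agent.Y851.PT.ZH H x := fun H x => (Pool.Agent.Y851.PT.ZH_eq H x).symm
  simp_rw [hden]
  obtain ⟨c, hc1, hc2⟩ := exists_between hcond
  have hKLT := Pool.Agent.J4H33.klt c hc2
  have hPCR : Pool.Agent.J4H33.PCR c := by
    apply Pool.Agent.J4H33.cutR
    intro τ δ hτ hτ1 hδ hδ1
    apply Pool.Agent.J4H33.blockH5 c τ δ _ hδ hδ1
    exact Pool.Agent.J4H33.block5 c τ (δ / 4) hKLT hτ hτ1 (by positivity) (by linarith)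
  obtain ⟨δ₁, hδ₁⟩ : ∃ δ₁, δ₁ = min δ 1 := ⟨_, rfl⟩
  have hδ₁0 : 0 < δ₁ := by rw [hδ₁]; exact lt_min hδ one_pos
  have hδ₁1 : δ₁ ≤ δ := by rw [hδ₁]; exact min_le_left _ _
  have hδ₁2 : δ₁ ≤ 1 := by rw [hδ₁]; exact min_le_right _ _
  obtain ⟨β₁, hβ₁⟩ : ∃ β₁, β₁ = min β 1 := ⟨_, rfl⟩
  have hβ₁0 : 0 < β₁ := by rw [hβ₁]; exact lt_min hβ one_pos
  have hβ₁1 : β₁ ≤ β := by rw [hβ₁]; exact min_le_left _ _
  have hβ₁2 : β₁ ≤ 1 := by rw [hβ₁]; exact min_le_right _ _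
  obtain ⟨ρ₁, hρ₁⟩ : ∃ ρ₁, ρ₁ = min ρ (1 - θ₁) := ⟨_, rfl⟩
  have hρ₁0 : 0 < ρ₁ := by rw [hρ₁]; exact lt_min hρ (by linarith)
  have hρ₁1 : ρ₁ ≤ ρ := by rw [hρ₁]; exact min_le_left _ _
  have hρ₁2 : ρ₁ ≤ 1 - θ₁ := by rw [hρ₁]; exact min_le_right _ _
  obtain ⟨s, H₁, hs, hH₁, hU⟩ := Pool.Agent.J4H33.unifR c γ ε 1 ρ₁ θ₁ β₁ δ₁ hPCR (by linarith) hε hγ hθ₁.le (by linarith) hc1
    one_pos le_rfl hρ₁0 (by linarith) hβ₁0 hβ₁2 hδ₁0 hδ₁2
  obtain ⟨X₀, hX₀⟩ := Filter.eventually_atTop.1 (hU.and (Filter.eventually_ge_atTop 3))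
  refine ⟨s, H₁, X₀, hs, fun X hX M D H₀ hD1 hDs hH₀ hM hM0 hMX A hA1 hA2 => ?_⟩
  obtain ⟨h1, h3⟩ := hX₀ X hX
  have hX0 : 0 < X := by linarith only [h3]
  have hX1 : 1 < X := by linarith only [h3]
  have hD0 : 0 < D := by linarith only [hD1]
  have hH₀1 : 1 ≤ H₀ := by linarith only [hH₀, hH₁]
  have hH₀0 : 0 < H₀ := by linarith only [hH₀1]
  have hlog1 : 1 ≤ Real.log X := by
    rw [Real.le_log_iff_exp_le hX0]
    linarith [Real.exp_one_lt_d9]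
  have hlog : 0 < Real.log X := by linarith only [hlog1]
  -- the exponent
  obtain ⟨θ, hθ⟩ : ∃ θ, θ = Real.log M / Real.log X := ⟨_, rfl⟩
  have hXM : X ^ θ = M := by
    rw [Real.rpow_def_of_pos hX0, hθ, mul_div_cancel₀ _ hlog.ne', Real.exp_log hM0]
  have hXM' : X ^ (1 - θ) = X / M := by
    rw [Real.rpow_sub hX0, Real.rpow_one, hXM]
  have hθ1 : θ ≤ θ₁ := by
    rw [← hXM] at hMX
    exact (Real.rpow_le_rpow_left_iff hX1).1 hMX
  obtain ⟨R, hR⟩ : ∃ R, R = max 1 (Real.log X / H₀) := ⟨_, rfl⟩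
  have hR1 : 1 ≤ R := by rw [hR]; exact le_max_left _ _
  have hR2 : R ≤ Real.log X := by
    rw [hR]
    exact max_le hlog1 (div_le_self hlog.le hH₀1)
  have hR3 : 1 * Real.log X ≤ R * H₀ := by
    have h4 : Real.log X / H₀ ≤ R := by rw [hR]; exact le_max_right _ _
    rw [div_le_iff₀ hH₀0] at h4
    linarith only [h4]
  rw [← hR] at hM
  by_cases hbig : H₀ ≤ X ^ (1 - ρ₁)
  · obtain ⟨U, hU1, hU2⟩ := h1 D hD1 hDs R hR1 hR2 H₀ hH₀ hR3 hbig θ (by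
      rw [hXM]
      calc D * R * Real.log X = D * Real.log X * R := by ring
        _ ≤ M ^ γ := hM) hθ1 A ⟨fun a ha => (hA1 a ha).1, fun a ha => by
          rw [hXM]
          exact (mul_le_mul_of_nonneg_right hβ₁1 hM0.le).trans (hA1 a ha).2.1, fun a ha => by
          rw [hXM]; exact (hA1 a ha).2.2, by rw [hXM]; exact hA2⟩
    rw [hXM, hXM'] at hU2
    refine ⟨U, hU1.trans ?_, fun y hy0 hy1 hyU H hH1 hH2 => ?_⟩
    · have h5 : 0 ≤ X / (H₀ * D) := by positivity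
      calc δ₁ * (X / (H₀ * D)) ≤ 1 * (X / (H₀ * D)) := mul_le_mul_of_nonneg_right hδ₁2 h5
        _ = _ := one_mul _
    · refine (hU2 y hy0 hy1 hyU H hH1 (hH2.trans (Real.rpow_le_rpow_of_exponent_le hX1.le (by linarith only [hρ₁1])))).trans ?_
      exact mul_le_mul_of_nonneg_right hδ₁1 (Nat.cast_nonneg _)
  · refine ⟨∅, by rw [card_empty, Nat.cast_zero]; positivity, fun y _ _ _ H hH1 hH2 => ?_⟩
    exfalso
    apply hbig
    exact hH1.trans (hH2.trans (Real.rpow_le_rpow_of_exponent_le hX1.le (by linarith only [hρ₁1])))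

end Pool.Agent.Results.MP_711652_nt.SparseDilates
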