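import Pool.Agent.J4H33.Uni5
import Pool.Agent.J4H33.KT5
import Pool.Agent.J4H33.Blk6
import Pool.Agent.J4H33.Blk7
import Pool.Agent.J4H33.Cut3

/-!
# Primes in windows of length `λ log X` at boundedly many polylogarithmic dilates

Let `A` be an ARBITRARY set of at least `M ^ (1 - ε)` primes in `[β M, M]`, where `M` may be as small as `(log X) ^ (3 + κ)`
and as large as a power of `X`. Then boundedly many elements of `A` suffice: there is `n₀`, independent of `X`, `M` and `A`,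
such that for every fixed `n ≥ n₀` and all but `δ |A| ^ n` of the `n`-tuples `a` of elements of `A` the following holds. For
every real `y` in `(0, X / M]` outside at most `δ X / (λ log X)` intervals of length `λ log X / M` and ALL lengths `H` with
`λ log X ≤ H ≤ X ^ (1 - ρ)` simultaneously, the `n` intervals `(a_j y - H, a_j y)` contain `(1 + O(δ)) H / log (a_j y)` primes
on average over `j`.
-/

set_option autoImplicit false

namespace Pool.Agent.Results.MP_711652_nt.BoundedlyManyDilates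

open Finset

/-- the number of primes in the open interval `(x - H, x)`, divided by its expected value `H / log x` -/
noncomputable def density (H x : ℝ) : ℝ :=
  (Set.ncard {p : ℕ | p.Prime ∧ x - H < p ∧ (p : ℝ) < x} : ℝ) * Real.log x / H

open Classical in
theorem result (γ ε θ₁ lam ρ β δ : ℝ) (hγ : 0 < γ) (hε : 0 < ε) (hθ₁ : 0 < θ₁) (hθ₁' : θ₁ < 1)
    (hcond : γ + (1 + θ₁) * ε < 1 / 3) (hlam : 0 < lam) (hρ : 0 < ρ) (hβ : 0 < β) (hδ : 0 < δ) :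
    ∃ n₀ : ℕ, 1 ≤ n₀ ∧ ∀ n : ℕ, n₀ ≤ n → ∃ X₀ : ℝ, ∀ X : ℝ, X₀ ≤ X →
      ∀ M : ℝ, Real.log X ≤ M ^ γ → 0 < M → M ≤ X ^ θ₁ →
      ∀ A : Finset ℕ, (∀ a ∈ A, a.Prime ∧ β * M ≤ (a : ℝ) ∧ (a : ℝ) ≤ M) → M ^ (1 - ε) ≤ (A.card : ℝ) →
      (((Fintype.piFinset (fun _ : Fin n => A)).filter (fun a =>
        ¬ ∃ U : Finset ℝ, (U.card : ℝ) ≤ δ * (X / (lam * Real.log X)) ∧ ∀ y : ℝ, 0 < y → y ≤ X / M →
          (∀ u ∈ U, ¬ (u ≤ y ∧ y ≤ u + lam * Real.log X / M)) →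
          ∀ H : ℝ, lam * Real.log X ≤ H → H ≤ X ^ (1 - ρ) →
            |∑ j, density H (a j * y) - n| ≤ δ * n)).card : ℝ) ≤ δ * (A.card : ℝ) ^ n := by
  have hden : ∀ H x : ℝ, density H x = Pool.Agent.Y851.PT.ZH H x := fun H x => (Pool.Agent.Y851.PT.ZH_eq H x).symm
  simp_rw [hden]
  obtain ⟨c, hc1, hc2⟩ := exists_between hcond
  have hKLT := Pool.Agent.J4H33.klt c hc2
  have hPCR : Pool.Agent.J4H33.PCR c := by
    apply Pool.Agent.J4H33.cutR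
    intro τ δ hτ hτ1 hδ hδ1
    apply Pool.Agent.J4H33.blockH5 c τ δ _ hδ hδ1
    exact Pool.Agent.J4H33.block5 c τ (δ / 4) hKLT hτ hτ1 (by positivity) (by linarith)
  obtain ⟨δ₁, hδ₁⟩ : ∃ δ₁, δ₁ = min δ 1 := ⟨_, rfl⟩
  have hδ₁0 : 0 < δ₁ := by rw [hδ₁]; exact lt_min hδ one_pos
  have hδ₁1 : δ₁ ≤ δ := by rw [hδ₁]; exact min_le_left _ _
  have hδ₁2 : δ₁ ≤ 1 := by rw [hδ₁]; exact min_le_right _ _
  obtain ⟨β₁, hβ₁⟩ : ∃ β₁, β₁ = min β 1 := ⟨_, rfl⟩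
  have hβ₁0 : 0 < β₁ := by rw [hβ₁]; exact lt_min hβ one_pos
  have hβ₁1 : β₁ ≤ β := by rw [hβ₁]; exact min_le_left _ _
  have hβ₁2 : β₁ ≤ 1 := by rw [hβ₁]; exact min_le_right _ _
  obtain ⟨ρ₁, hρ₁⟩ : ∃ ρ₁, ρ₁ = min ρ (1 - θ₁) := ⟨_, rfl⟩
  have hρ₁0 : 0 < ρ₁ := by rw [hρ₁]; exact lt_min hρ (by linarith)
  have hρ₁1 : ρ₁ ≤ ρ := by rw [hρ₁]; exact min_le_left _ _
  have hρ₁2 : ρ₁ ≤ 1 - θ₁ := by rw [hρ₁]; exact min_le_right _ _
  obtain ⟨n₀, hn₀, hB⟩ := Pool.Agent.J4H33.unifB5 c γ ε lam ρ₁ θ₁ β₁ δ₁ hPCR (by linarith) hε hγ hθ₁.le (by linarith) hc1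
    hlam hρ₁0 (by linarith) hβ₁0 hβ₁2 hδ₁0 hδ₁2
  refine ⟨n₀, hn₀, fun n hn => ?_⟩
  obtain ⟨X₀, hX₀⟩ := Filter.eventually_atTop.1 ((hB n hn).and (Filter.eventually_ge_atTop 3))
  refine ⟨X₀, fun X hX M hM hM0 hMX A hA1 hA2 => ?_⟩
  obtain ⟨h1, h3⟩ := hX₀ X hX
  have hX0 : 0 < X := by linarith only [h3]
  have hX1 : 1 < X := by linarith only [h3]
  have hlog : 0 < Real.log X := Real.log_pos hX1
  -- the exponent
  obtain ⟨θ, hθ⟩ : ∃ θ, θ = Real.log M / Real.log X := ⟨_, rfl⟩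
  have hXM : X ^ θ = M := by
    rw [Real.rpow_def_of_pos hX0, hθ, mul_div_cancel₀ _ hlog.ne', Real.exp_log hM0]
  have hXM' : X ^ (1 - θ) = X / M := by
    rw [Real.rpow_sub hX0, Real.rpow_one, hXM]
  have hθ1 : θ ≤ θ₁ := by
    rw [← hXM] at hMX
    exact (Real.rpow_le_rpow_left_iff hX1).1 hMX
  have h4 := h1 θ (by rw [hXM]; exact hM) hθ1 A ⟨fun a ha => (hA1 a ha).1, fun a ha => by
    rw [hXM]
    exact (mul_le_mul_of_nonneg_right hβ₁1 hM0.le).trans (hA1 a ha).2.1, fun a ha => by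
    rw [hXM]; exact (hA1 a ha).2.2, by rw [hXM]; exact hA2⟩
  rw [hXM, hXM'] at h4
  refine le_trans ?_ (h4.trans (mul_le_mul_of_nonneg_right hδ₁1 (by positivity)))
  rw [Nat.cast_le]
  apply card_le_card
  intro a ha
  rw [mem_filter] at ha ⊢
  refine ⟨ha.1, fun hex => ha.2 ?_⟩
  obtain ⟨U, hU1, hU2⟩ := hex
  refine ⟨U, hU1.trans (mul_le_mul_of_nonneg_right hδ₁1 (by positivity)), fun y hy0 hy1 hyU H hH1 hH2 => ?_⟩
  refine (hU2 y hy0 hy1 hyU H hH1 (hH2.trans (Real.rpow_le_rpow_of_exponent_le hX1.le (by linarith only [hρ₁1])))).trans ?_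
  exact mul_le_mul_of_nonneg_right hδ₁1 (Nat.cast_nonneg _)

end Pool.Agent.Results.MP_711652_nt.BoundedlyManyDilates
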