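import Pool.Agent.J4H33.LF3

/-!
# Primes in very short intervals at the dilates of almost every point by an arbitrary dense set of integers

Let `A` be an ARBITRARY set of at least `α M` positive integers up to `M`, where `M` may be as small as a power (depending on
`α` and `δ`) of `log X`. Then for all real `y` in `(0, X / M]` outside few short intervals and ALL lengths `H ≥ H₀` at once,
the intervals `(a y - H, a y)`, `a ∈ A`, contain at least `1 - δ` times the expected number of primes: no dense set of small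
integers maps a typical `y` into gaps between primes (second part). If every element of `A` has a prime factor `≥ M ^ η`, then
the set `A` may be sparse (`M ^ (1 - η / 24)` elements) and the number of primes is asymptotically as expected (first part).

Proof: write `a = q b` with a large prime `q`; for most `b` the set of the `q` is rich enough for the theorem on sparse sets of
primes (`SparseDilates`), and the exceptional sets of the different `b` are combined with weights. The integers without a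
large prime factor are few.
-/

set_option autoImplicit false

namespace Pool.Agent.Results.MP_711652_nt.DenseIntegerDilates

open Finset

/-- the number of primes in the open interval `(x - H, x)`, divided by its expected value `H / log x` -/
noncomputable def density (H x : ℝ) : ℝ :=
  (Set.ncard {p : ℕ | p.Prime ∧ x - H < p ∧ (p : ℝ) < x} : ℝ) * Real.log x / H

theorem result :
    (∀ θ₁ ρ β δ η : ℝ, 0 < θ₁ → θ₁ < 1 → 0 < ρ → 0 < β → 0 < δ → 0 < η →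
      ∃ s H₁ X₀ : ℝ, 0 < s ∧ ∀ X : ℝ, X₀ ≤ X → ∀ M D H₀ : ℝ, 1 ≤ D → D ≤ X ^ s → H₁ ≤ H₀ →
        D * Real.log X ^ 2 * max 1 (Real.log X / H₀) ≤ M ^ (η / 12) → 0 < M → M ≤ X ^ θ₁ →
        ∀ A : Finset ℕ, (∀ a ∈ A, β * M ≤ (a : ℝ) ∧ (a : ℝ) ≤ M ∧ ∃ q : ℕ, q.Prime ∧ q ∣ a ∧ M ^ η ≤ q) →
        M ^ (1 - η / 24) ≤ (A.card : ℝ) →
        ∃ U : Finset ℝ, (U.card : ℝ) ≤ X / (H₀ * D) ∧ ∀ y : ℝ, 0 < y → y ≤ X / M →
          (∀ u ∈ U, ¬ (u ≤ y ∧ y ≤ u + H₀ / M)) →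
          ∀ H : ℝ, H₀ ≤ H → H ≤ X ^ (1 - ρ) → |∑ a ∈ A, density H (a * y) - A.card| ≤ δ * A.card) ∧
    (∀ θ₁ ρ α δ : ℝ, 0 < θ₁ → θ₁ < 1 → 0 < ρ → 0 < α → 0 < δ →
      ∃ c s H₁ X₀ : ℝ, 0 < c ∧ 0 < s ∧ ∀ X : ℝ, X₀ ≤ X → ∀ M D H₀ : ℝ, 1 ≤ D → D ≤ X ^ s → H₁ ≤ H₀ →
        D * Real.log X ^ 2 * max 1 (Real.log X / H₀) ≤ M ^ c → 0 < M → M ≤ X ^ θ₁ →
        ∀ A : Finset ℕ, (∀ a ∈ A, 1 ≤ a ∧ (a : ℝ) ≤ M) → α * M ≤ (A.card : ℝ) →
        ∃ U : Finset ℝ, (U.card : ℝ) ≤ X / (H₀ * D) ∧ ∀ y : ℝ, 0 < y → y ≤ X / M →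
          (∀ u ∈ U, ¬ (u ≤ y ∧ y ≤ u + H₀ / M)) →
          ∀ H : ℝ, H₀ ≤ H → H ≤ X ^ (1 - ρ) → (1 - δ) * A.card ≤ ∑ a ∈ A, density H (a * y)) := by
  have hden : ∀ H x : ℝ, density H x = Pool.Agent.Results.MP_711652_nt.SparseDilates.density H x := fun _ _ => rfl
  simp_rw [hden]
  refine ⟨fun θ₁ ρ β δ η h1 h2 h3 h4 h5 h6 => ?_, fun θ₁ ρ α δ h1 h2 h3 h4 h5 => ?_⟩
  · obtain ⟨s, H₁, X₀, hs, _, h⟩ := Pool.Agent.J4H33.LF.largeFactor θ₁ ρ β (min δ 1) η h1 h2 h3 h4 (lt_min h5 one_pos)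
      (min_le_right _ _) h6
    refine ⟨s, H₁, X₀, hs, fun X hX M D H₀ a1 a2 a3 a4 a5 a6 A a7 a8 => ?_⟩
    obtain ⟨U, hU1, hU2⟩ := h X hX M D H₀ a1 a2 a3 a4 a5 a6 A a7 a8
    refine ⟨U, hU1, fun y b1 b2 b3 H b4 b5 => (hU2 y b1 b2 b3 H b4 b5).trans ?_⟩
    exact mul_le_mul_of_nonneg_right (min_le_left _ _) (Nat.cast_nonneg _)
  · obtain ⟨c, s, H₁, X₀, hc, hs, h⟩ := Pool.Agent.J4H33.LF.dense θ₁ ρ α (min δ 1) h1 h2 h3 h4 (lt_min h5 one_pos)
      (min_le_right _ _)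
    refine ⟨c, s, H₁, X₀, hc, hs, fun X hX M D H₀ a1 a2 a3 a4 a5 a6 A a7 a8 => ?_⟩
    obtain ⟨U, hU1, hU2⟩ := h X hX M D H₀ a1 a2 a3 a4 a5 a6 A a7 a8
    refine ⟨U, hU1, fun y b1 b2 b3 H b4 b5 => le_trans ?_ (hU2 y b1 b2 b3 H b4 b5)⟩
    exact mul_le_mul_of_nonneg_right (by linarith [min_le_left δ 1]) (Nat.cast_nonneg _)

end Pool.Agent.Results.MP_711652_nt.DenseIntegerDilates
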