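import Pool.Agent.J4H33.W8

/-!
# A positive proportion of sparse dilates of almost every point has a prime nearby

Let `A` be an ARBITRARY set of at least `M ^ (1 - ε)` primes in `[β M, M]`, where `M` may be as small as `(log X) ^ (15 + κ)`
and as large as a power of `X`. Then for every real `y` in `(0, X / M]` outside at most `X / (H₁ D)` intervals of length
`H₁ / M` (`H₁` a constant), the following holds for ALL `H ≥ H₁` simultaneously: for at least `c₀ min (1, H / log X) |A|` of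
the `a ∈ A` there is a prime in `(a y - H, a y)`. This is sharp up to the constant `c₀`, which depends only on `θ₁`, where
`M ≤ X ^ θ₁`.

Proof: the number of primes in `(a y - H, a y)` has the expected mean over `a ∈ A` (`SparseDilates`); its second moment over
`a ∈ A` is bounded, for all `y` outside few short intervals, by the variance over the dilates of the counting function of an
upper bound (Brun and Hooley) sieve for prime pairs; and the inequality of Cauchy and Schwarz.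
-/

set_option autoImplicit false

namespace Pool.Agent.Results.MP_711652_nt.PositiveProportionOfDilates

open Finset

open Classical in
theorem result (θ₁ : ℝ) (hθ₁ : 0 < θ₁) (hθ₁' : θ₁ < 1) : ∃ c₀ : ℝ, 0 < c₀ ∧ ∀ γ ε β : ℝ, 0 < γ → 0 < ε →
    γ + (1 + θ₁) * ε < 1 / 3 → 0 < β →
    ∃ s H₁ X₀ : ℝ, 0 < s ∧ 1 ≤ H₁ ∧ ∀ X : ℝ, X₀ ≤ X → ∀ M D : ℝ, 1 ≤ D → D ≤ X ^ s → D * Real.log X ^ 5 ≤ M ^ γ → 0 < M →
      M ≤ X ^ θ₁ → ∀ A : Finset ℕ, (∀ a ∈ A, a.Prime ∧ β * M ≤ (a : ℝ) ∧ (a : ℝ) ≤ M) → M ^ (1 - ε) ≤ (A.card : ℝ) →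
      ∃ U : Finset ℝ, (U.card : ℝ) ≤ X / (H₁ * D) ∧ ∀ y : ℝ, 0 < y → y ≤ X / M →
        (∀ u ∈ U, ¬ (u ≤ y ∧ y ≤ u + H₁ / M)) →
        ∀ H : ℝ, H₁ ≤ H → c₀ * min 1 (H / Real.log X) * A.card ≤
          ((A.filter (fun a : ℕ => ∃ p : ℕ, p.Prime ∧ (a : ℝ) * y - H < p ∧ (p : ℝ) < a * y)).card : ℝ) := by
  obtain ⟨c₀, hc₀, h⟩ := Pool.Agent.J4H33.W.positive θ₁ hθ₁ hθ₁'
  refine ⟨c₀, hc₀, fun γ ε β h1 h2 h3 h4 => ?_⟩
  obtain ⟨s, H₁, X₀, hs, hH₁, h⟩ := h γ ε β h1 h2 h3 h4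
  refine ⟨s, H₁, X₀, hs, hH₁, fun X hX M D a1 a2 a3 a4 a5 A a6 a7 => ?_⟩
  obtain ⟨U, hU1, hU2⟩ := h X hX M D a1 a2 a3 a4 a5 A a6 a7
  refine ⟨U, hU1, fun y b1 b2 b3 H b4 => (hU2 y b1 b2 b3 H b4).trans (le_of_eq ?_)⟩
  congr 2
  apply filter_congr
  intro a _
  constructor
  · rintro ⟨p, hp⟩
    exact ⟨p, (Pool.Agent.J4H33.W.mem_win _ _ _).1 hp⟩
  · rintro ⟨p, hp⟩
    exact ⟨p, (Pool.Agent.J4H33.W.mem_win _ _ _).2 hp⟩

end Pool.Agent.Results.MP_711652_nt.PositiveProportionOfDilates
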